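import Pool.Agent.K7.H74.AF.Stm

set_option autoImplicit false

/-! Project AF, job TSTEP: the step for the excess sets. -/

open MeasureTheory Finset

namespace Pool.Agent.K7.H64.AFT

open Pool.Agent.K7.H74.AF

/-- pointwise decomposition -/
lemma point (c M l0 : ℕ) (v : ℝ) (hv : 0 ≤ v) (hc : (c : ℝ) ≤ 2 ^ M) :
    (c : ℝ) ≤ v + 2 ^ l0 +
      ∑ l ∈ Finset.Icc l0 M, if v + (2 : ℝ) ^ l ≤ c then (2 : ℝ) ^ (l + 1) else 0 := by
  classical
  have hnn : ∀ l ∈ Finset.Icc l0 M, 0 ≤ if v + (2 : ℝ) ^ l ≤ c then (2 : ℝ) ^ (l + 1) else 0 := by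
    intro l _
    split_ifs
    · positivity
    · exact le_refl _
  by_cases h : v + (2 : ℝ) ^ l0 ≤ c
  · have hl0 : l0 ≤ M := by
      have : (2 : ℝ) ^ l0 ≤ 2 ^ M := by linarith
      exact (pow_le_pow_iff_right₀ (by norm_num : (1 : ℝ) < 2)).1 this
    set g := Nat.findGreatest (fun l => v + (2 : ℝ) ^ l ≤ c) M with hg
    have h1 : v + (2 : ℝ) ^ g ≤ c := Nat.findGreatest_spec (P := fun l => v + (2 : ℝ) ^ l ≤ c) hl0 h
    have h2 : l0 ≤ g := Nat.le_findGreatest hl0 h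
    have h3 : g ≤ M := Nat.findGreatest_le M
    have h4 : (c : ℝ) ≤ v + 2 ^ (g + 1) := by
      rcases lt_or_eq_of_le h3 with h5 | h5
      · have := Nat.findGreatest_is_greatest (P := fun l => v + (2 : ℝ) ^ l ≤ c)
          (n := M) (k := g + 1) (by omega) (by omega)
        push Not at this
        exact this.le
      · rw [h5]
        have : (2 : ℝ) ^ M ≤ 2 ^ (M + 1) := pow_le_pow_right₀ (by norm_num) (by omega)
        linarith
    have h5 : (2 : ℝ) ^ (g + 1) ≤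
        ∑ l ∈ Finset.Icc l0 M, if v + (2 : ℝ) ^ l ≤ c then (2 : ℝ) ^ (l + 1) else 0 := by
      have := Finset.single_le_sum hnn (Finset.mem_Icc.2 ⟨h2, h3⟩)
      simpa [h1] using this
    have h6 : (0 : ℝ) < 2 ^ l0 := by positivity
    linarith
  · have := Finset.sum_nonneg hnn
    push Not at h
    linarith

/-- one of the levels is large -/
lemma pick (M l0 l' : ℕ) (a : ℝ) (N : ℕ → ℝ) (ha : a ≤ 2 ^ l' / 4)
    (h : (2 : ℝ) ^ l' ≤ a + ∑ l ∈ Finset.Icc l0 M, 2 ^ (l + 1) * N l) :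
    ∃ l ∈ Finset.Icc l0 M, (2 : ℝ) ^ l' ≤ 4 * (M + 1) * 2 ^ l * N l := by
  by_contra hc
  push Not at hc
  have hM : (0 : ℝ) < M + 1 := by positivity
  have h1 : ∀ l ∈ Finset.Icc l0 M, (2 : ℝ) ^ (l + 1) * N l ≤ 2 ^ l' / (2 * (M + 1)) := by
    intro l hl
    have := hc l hl
    rw [le_div_iff₀ (by positivity)]
    calc (2 : ℝ) ^ (l + 1) * N l * (2 * (M + 1)) = 4 * (M + 1) * 2 ^ l * N l := by ring
      _ ≤ 2 ^ l' := this.le
  have h2 := Finset.sum_le_card_nsmul _ _ _ h1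
  have h3 : ((Finset.Icc l0 M).card : ℝ) ≤ M + 1 := by
    rw [Nat.card_Icc]
    have : M + 1 - l0 ≤ M + 1 := Nat.sub_le _ _
    exact_mod_cast this
  have h4 : (0 : ℝ) < 2 ^ l' := by positivity
  rw [nsmul_eq_mul] at h2
  have h5 : ((Finset.Icc l0 M).card : ℝ) * (2 ^ l' / (2 * (M + 1))) ≤ 2 ^ l' / 2 := by
    calc ((Finset.Icc l0 M).card : ℝ) * (2 ^ l' / (2 * (M + 1)))
        ≤ (M + 1) * (2 ^ l' / (2 * (M + 1))) := mul_le_mul_of_nonneg_right h3 (by positivity)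
      _ = 2 ^ l' / 2 := by field_simp
  linarith

/-- the number of `x` of the block with `τ - (x + β) ^ k ∈ B` -/
noncomputable def nn (k J : ℕ) (B : Set ℝ) (β τ : ℝ) : ℕ := by
  classical
  exact ((blk J).filter fun x : ℕ => τ - ((x : ℝ) + β) ^ k ∈ B).card

lemma card_blk (J : ℕ) : ((blk J).card : ℝ) ≤ 3 ^ J := by
  unfold blk
  rw [Nat.card_Ico]
  have : 3 ^ J - lo J ≤ 3 ^ J := Nat.sub_le _ _
  exact_mod_cast this

lemma nn_le (k J : ℕ) (B : Set ℝ) (β τ : ℝ) : (nn k J B β τ : ℝ) ≤ 3 ^ J := by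
  classical
  refine le_trans ?_ (card_blk J)
  unfold nn
  exact_mod_cast Finset.card_filter_le _ _

lemma vol_shift (k : ℕ) (B : Set ℝ) (β : ℝ) (x : ℕ) :
    volume {τ : ℝ | τ - ((x : ℝ) + β) ^ k ∈ B} = volume B := by
  have := measure_preimage_add_right (volume : Measure ℝ) (-(((x : ℝ) + β) ^ k)) B
  simpa [Set.preimage, sub_eq_add_neg] using this

lemma vol_one (k J : ℕ) (B : Set ℝ) (β : ℝ) :
    volume {τ : ℝ | 1 ≤ nn k J B β τ} ≤ ENNReal.ofReal (3 ^ J) * volume B := by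
  classical
  have h1 : {τ : ℝ | 1 ≤ nn k J B β τ} ⊆ ⋃ x ∈ blk J, {τ : ℝ | τ - ((x : ℝ) + β) ^ k ∈ B} := by
    intro τ hτ
    have hτ' : 0 < ((blk J).filter fun x : ℕ => τ - ((x : ℝ) + β) ^ k ∈ B).card := by
      have : 1 ≤ nn k J B β τ := hτ
      unfold nn at this
      exact this
    obtain ⟨x, hx⟩ := Finset.card_pos.1 hτ'
    rw [Finset.mem_filter] at hx
    simp only [Set.mem_iUnion]
    exact ⟨x, hx.1, hx.2⟩
  refine (measure_mono h1).trans ((measure_biUnion_finset_le _ _).trans ?_)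
  simp only [vol_shift]
  rw [Finset.sum_const, nsmul_eq_mul]
  refine mul_le_mul_left ?_ _
  rw [← ENNReal.ofReal_natCast]
  exact ENNReal.ofReal_le_ofReal (card_blk J)

lemma vol_two (k J : ℕ) (B : Set ℝ) (hB : MeasurableSet B) (β K : ℝ) (hK : 1 < K) :
    ENNReal.ofReal (K ^ 2 / 2) * volume {τ : ℝ | K ≤ nn k J B β τ} ≤ pairs k J B β := by
  classical
  set A : ℕ → Set ℝ := fun x => {τ : ℝ | τ - ((x : ℝ) + β) ^ k ∈ B} with hA
  have hAm : ∀ x, MeasurableSet (A x) := fun x => (measurable_id.sub_const _) hB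
  set f : ℝ → ENNReal := fun τ => ∑ x ∈ blk J, ∑ y ∈ (blk J).erase x,
    (A x ∩ A y).indicator 1 τ with hf
  have hfm : Measurable f := by
    refine Finset.measurable_sum _ fun x _ => Finset.measurable_sum _ fun y _ => ?_
    exact measurable_one.indicator ((hAm x).inter (hAm y))
  have h1 : ∫⁻ τ, f τ = pairs k J B β := by
    unfold pairs
    simp only [hf]
    rw [lintegral_finsetSum _ (fun x _ => Finset.measurable_sum _ fun y _ =>
      measurable_one.indicator ((hAm x).inter (hAm y)))]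
    refine Finset.sum_congr rfl fun x _ => ?_
    rw [lintegral_finsetSum _ (fun y _ => measurable_one.indicator ((hAm x).inter (hAm y)))]
    refine Finset.sum_congr rfl fun y _ => ?_
    rw [lintegral_indicator_one ((hAm x).inter (hAm y))]
    rfl
  have h2 : ∀ τ, f τ = ((nn k J B β τ * (nn k J B β τ - 1) : ℕ) : ENNReal) := by
    intro τ
    set F := (blk J).filter fun x : ℕ => τ - ((x : ℝ) + β) ^ k ∈ B with hF
    have hN : nn k J B β τ = F.card := rfl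
    rw [hN]
    have h3 : ∀ x ∈ blk J, (∑ y ∈ (blk J).erase x, (A x ∩ A y).indicator (1 : ℝ → ENNReal) τ) =
        if x ∈ F then ((F.card - 1 : ℕ) : ENNReal) else 0 := by
      intro x hx
      by_cases hxF : x ∈ F
      · rw [if_pos hxF]
        have hxA : τ ∈ A x := (Finset.mem_filter.1 hxF).2
        have : ∀ y ∈ (blk J).erase x, (A x ∩ A y).indicator (1 : ℝ → ENNReal) τ =
            if τ - ((y : ℝ) + β) ^ k ∈ B then 1 else 0 := by
          intro y _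
          by_cases hy : τ - ((y : ℝ) + β) ^ k ∈ B
          · rw [if_pos hy, Set.indicator_of_mem (show τ ∈ A x ∩ A y from ⟨hxA, hy⟩)]
            rfl
          · rw [if_neg hy, Set.indicator_of_notMem (fun h => hy h.2)]
        rw [Finset.sum_congr rfl this, Finset.sum_ite, Finset.sum_const_zero, add_zero,
          Finset.sum_const, nsmul_eq_mul, mul_one, Finset.filter_erase]
        rw [Finset.card_erase_of_mem hxF]
      · rw [if_neg hxF]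
        refine Finset.sum_eq_zero fun y _ => ?_
        refine Set.indicator_of_notMem (fun h => hxF ?_) _
        exact Finset.mem_filter.2 ⟨hx, h.1⟩
    simp only [hf]
    rw [Finset.sum_congr rfl h3, Finset.sum_ite, Finset.sum_const_zero, add_zero,
      Finset.sum_const, nsmul_eq_mul]
    have : (blk J).filter (fun x => x ∈ F) = F := by
      ext x
      simp [hF]
    rw [this]
    push_cast
    rfl
  rw [← h1]
  refine le_trans ?_ (mul_meas_ge_le_lintegral hfm (ENNReal.ofReal (K ^ 2 / 2)))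
  refine mul_le_mul_right (measure_mono fun τ hτ => ?_) _
  have hτ' : K ≤ nn k J B β τ := hτ
  show ENNReal.ofReal (K ^ 2 / 2) ≤ f τ
  rw [h2, ← ENNReal.ofReal_natCast]
  refine ENNReal.ofReal_le_ofReal ?_
  set n := nn k J B β τ
  have hn : 2 ≤ n := by
    have : (1 : ℝ) < n := lt_of_lt_of_le hK hτ'
    have : 1 < n := by exact_mod_cast this
    omega
  obtain ⟨p, hp⟩ : ∃ p, n = p + 2 := ⟨n - 2, by omega⟩
  rw [hp] at hτ' ⊢
  have : p + 2 - 1 = p + 1 := by omega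
  rw [this]
  push_cast at hτ' ⊢
  have hK2 : K ^ 2 ≤ ((p : ℝ) + 2) ^ 2 := pow_le_pow_left₀ (by linarith) hτ' 2
  have hp0 : (0 : ℝ) ≤ p := Nat.cast_nonneg _
  nlinarith


lemma i1 (k j t : ℕ) (C Cp z L L' m ε δs e1 : ℝ) (hCp : 0 ≤ Cp) (hz : 1 ≤ z)
    (hL : 1 ≤ L) (hL' : 1 ≤ L') (hm : 1 ≤ m) (hδs : 0 ≤ δs) (h1 : L' ≤ 4 * m * L * z)
    (h2 : L ≤ z ^ (2 * t)) (h3 : (2 * t + 1) * δs ≤ e1) (hj : 1 ≤ j) :
    (Cp * (z * L) ^ δs * z ^ 2 / z ^ k) *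
        (C * z ^ ((k : ℝ) - 2 ^ j / 2 + ε) * (z ^ (j : ℝ) / L) ^ (2 ^ j)) ^ 2 /
        ((L' / (4 * m * L)) ^ 2 / 2) ≤
      32 * 4 ^ (2 ^ (j + 1)) * Cp * C ^ 2 * m ^ (2 ^ (j + 1)) *
        z ^ ((k : ℝ) - 2 ^ (j + 1) / 2 + (e1 + 2 * ε)) *
        (z ^ (((j + 1 : ℕ) : ℝ)) / L') ^ (2 ^ (j + 1)) := by
  obtain ⟨a, rfl⟩ : ∃ a, z = Real.exp a := ⟨Real.log z, (Real.exp_log (by linarith)).symm⟩
  obtain ⟨b, rfl⟩ : ∃ b, L = Real.exp b := ⟨Real.log L, (Real.exp_log (by linarith)).symm⟩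
  obtain ⟨b', rfl⟩ : ∃ b', L' = Real.exp b' := ⟨Real.log L', (Real.exp_log (by linarith)).symm⟩
  obtain ⟨c, rfl⟩ : ∃ c, m = Real.exp c := ⟨Real.log m, (Real.exp_log (by linarith)).symm⟩
  have ha : 0 ≤ a := by
    rw [← Real.exp_zero, Real.exp_le_exp] at hz
    exact hz
  have h4 : (4 : ℝ) = Real.exp (Real.log 4) := (Real.exp_log (by norm_num)).symm
  have hl4 : 0 ≤ Real.log 4 := Real.log_nonneg (by norm_num)
  have g1 : b' ≤ Real.log 4 + c + b + a := by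
    rw [h4, ← Real.exp_add, ← Real.exp_add, ← Real.exp_add, Real.exp_le_exp] at h1
    linarith
  have g2 : b ≤ 2 * t * a := by
    rw [← Real.exp_nat_mul, Real.exp_le_exp] at h2
    push_cast at h2
    exact h2
  set q : ℝ := 2 ^ j with hq
  have hq2 : 2 ≤ q := by
    rw [hq]
    calc (2 : ℝ) = 2 ^ 1 := by norm_num
      _ ≤ 2 ^ j := pow_le_pow_right₀ (by norm_num) hj
  have hQ : (2 : ℝ) ^ (j + 1) = 2 * q := by rw [hq, pow_succ]; ring
  have x1 : (Real.exp a * Real.exp b) ^ δs = Real.exp ((a + b) * δs) := by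
    rw [← Real.exp_add, ← Real.exp_mul]
  have x4 : Real.exp a ^ ((k : ℝ) - q / 2 + ε) = Real.exp (a * ((k : ℝ) - q / 2 + ε)) := by
    rw [← Real.exp_mul]
  have x5 : (Real.exp a ^ (j : ℝ) / Real.exp b) ^ (2 ^ j) = Real.exp (q * (a * j - b)) := by
    rw [← Real.exp_mul, ← Real.exp_sub, ← Real.exp_nat_mul]
    push_cast
    rfl
  have x6 : Real.exp c ^ (2 ^ (j + 1)) = Real.exp (2 * q * c) := by
    rw [← Real.exp_nat_mul]
    push_cast
    rw [hQ]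
  have x7 : Real.exp a ^ ((k : ℝ) - 2 ^ (j + 1) / 2 + (e1 + 2 * ε)) =
      Real.exp (a * ((k : ℝ) - q + (e1 + 2 * ε))) := by
    rw [← Real.exp_mul, hQ]
    congr 1
    ring
  have x8 : (Real.exp a ^ (((j + 1 : ℕ) : ℝ)) / Real.exp b') ^ (2 ^ (j + 1)) =
      Real.exp (2 * q * (a * (j + 1) - b')) := by
    rw [← Real.exp_mul, ← Real.exp_sub, ← Real.exp_nat_mul]
    push_cast
    rw [hQ]
  have x9 : (4 : ℝ) ^ (2 ^ (j + 1)) = Real.exp (2 * q * Real.log 4) := by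
    conv_lhs => rw [h4]
    rw [← Real.exp_nat_mul]
    push_cast
    rw [hQ]
  have x10 : (Real.exp b' / (4 * Real.exp c * Real.exp b)) ^ 2 / 2 =
      Real.exp (2 * (b' - c - b)) / 32 := by
    have : Real.exp (2 * (b' - c - b)) = (Real.exp b' / (Real.exp c * Real.exp b)) ^ 2 := by
      rw [← Real.exp_add, ← Real.exp_sub, ← Real.exp_nat_mul]
      congr 1
      push_cast
      ring
    rw [this]
    field_simp
    ring
  rw [x1, x4, x5, x6, x7, x8, x9, x10]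
  have y1 : Real.exp a ^ 2 = Real.exp (2 * a) := by
    rw [← Real.exp_nat_mul]; norm_num
  have y2 : Real.exp a ^ k = Real.exp (k * a) := by
    rw [← Real.exp_nat_mul]
  rw [y1, y2]
  have L1 : (Cp * Real.exp ((a + b) * δs) * Real.exp (2 * a) / Real.exp (k * a)) *
        (C * Real.exp (a * ((k : ℝ) - q / 2 + ε)) * Real.exp (q * (a * j - b))) ^ 2 /
        (Real.exp (2 * (b' - c - b)) / 32) =
      32 * Cp * C ^ 2 * Real.exp ((a + b) * δs + 2 * a - k * a +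
        2 * (a * ((k : ℝ) - q / 2 + ε)) + 2 * (q * (a * j - b)) - 2 * (b' - c - b)) := by
    rw [Real.exp_sub, Real.exp_add, Real.exp_add, Real.exp_sub, Real.exp_add]
    have z1 : Real.exp (2 * (a * ((k : ℝ) - q / 2 + ε))) =
        Real.exp (a * ((k : ℝ) - q / 2 + ε)) ^ 2 := by
      rw [← Real.exp_nat_mul]; norm_num
    have z2 : Real.exp (2 * (q * (a * j - b))) = Real.exp (q * (a * j - b)) ^ 2 := by
      rw [← Real.exp_nat_mul]; norm_num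
    rw [z1, z2]
    field_simp
  have L2 : 32 * Real.exp (2 * q * Real.log 4) * Cp * C ^ 2 * Real.exp (2 * q * c) *
        Real.exp (a * ((k : ℝ) - q + (e1 + 2 * ε))) * Real.exp (2 * q * (a * (j + 1) - b')) =
      32 * Cp * C ^ 2 * Real.exp (2 * q * Real.log 4 + 2 * q * c +
        a * ((k : ℝ) - q + (e1 + 2 * ε)) + 2 * q * (a * (j + 1) - b')) := by
    rw [Real.exp_add, Real.exp_add, Real.exp_add]
    ring
  rw [L1, L2]
  refine mul_le_mul_of_nonneg_left ?_ (by positivity)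
  rw [Real.exp_le_exp]
  have k1 : (2 * q - 2) * b' ≤ (2 * q - 2) * (Real.log 4 + c + b + a) :=
    mul_le_mul_of_nonneg_left g1 (by linarith)
  have k2 : (a + b) * δs ≤ a * e1 := by
    calc (a + b) * δs ≤ (a + 2 * t * a) * δs := mul_le_mul_of_nonneg_right (by linarith) hδs
      _ = a * ((2 * t + 1) * δs) := by ring
      _ ≤ a * e1 := mul_le_mul_of_nonneg_left h3 ha
  have k3 : 0 ≤ 2 * Real.log 4 := by linarith
  nlinarith [k1, k2, k3]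

lemma i2 (k j : ℕ) (Cs z L L' m δs e1 : ℝ) (hCs : 0 ≤ Cs) (hz : 1 ≤ z)
    (hL : 1 ≤ L) (hL' : 1 ≤ L') (hm : 1 ≤ m) (hδs : δs ≤ 1) (h1 : L' ≤ 4 * m * L)
    (he : 0 ≤ e1) (hj : 1 ≤ j) :
    z * (Cs * z ^ ((k : ℝ) + δs) * (z ^ (((k + j : ℕ) : ℝ) - k) / L) ^ (2 ^ (j + 1))) ≤
      4 ^ (2 ^ (j + 1)) * Cs * m ^ (2 ^ (j + 1)) *
        z ^ ((k : ℝ) - 2 ^ (j + 1) / 2 + e1) *
        (z ^ (((j + 1 : ℕ) : ℝ)) / L') ^ (2 ^ (j + 1)) := by
  obtain ⟨a, rfl⟩ : ∃ a, z = Real.exp a := ⟨Real.log z, (Real.exp_log (by linarith)).symm⟩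
  obtain ⟨b, rfl⟩ : ∃ b, L = Real.exp b := ⟨Real.log L, (Real.exp_log (by linarith)).symm⟩
  obtain ⟨b', rfl⟩ : ∃ b', L' = Real.exp b' := ⟨Real.log L', (Real.exp_log (by linarith)).symm⟩
  obtain ⟨c, rfl⟩ : ∃ c, m = Real.exp c := ⟨Real.log m, (Real.exp_log (by linarith)).symm⟩
  have ha : 0 ≤ a := by
    rw [← Real.exp_zero, Real.exp_le_exp] at hz
    exact hz
  have h4 : (4 : ℝ) = Real.exp (Real.log 4) := (Real.exp_log (by norm_num)).symm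
  have g1 : b' ≤ Real.log 4 + c + b := by
    rw [h4, ← Real.exp_add, ← Real.exp_add, Real.exp_le_exp] at h1
    linarith
  set q : ℝ := 2 ^ j with hq
  have hq2 : 2 ≤ q := by
    rw [hq]
    calc (2 : ℝ) = 2 ^ 1 := by norm_num
      _ ≤ 2 ^ j := pow_le_pow_right₀ (by norm_num) hj
  have hQ : (2 : ℝ) ^ (j + 1) = 2 * q := by rw [hq, pow_succ]; ring
  have x4 : Real.exp a ^ ((k : ℝ) + δs) = Real.exp (a * ((k : ℝ) + δs)) := by
    rw [← Real.exp_mul]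
  have x5 : (Real.exp a ^ (((k + j : ℕ) : ℝ) - k) / Real.exp b) ^ (2 ^ (j + 1)) =
      Real.exp (2 * q * (a * j - b)) := by
    rw [← Real.exp_mul, ← Real.exp_sub, ← Real.exp_nat_mul]
    push_cast
    rw [hQ]
    congr 1
    ring
  have x6 : Real.exp c ^ (2 ^ (j + 1)) = Real.exp (2 * q * c) := by
    rw [← Real.exp_nat_mul]
    push_cast
    rw [hQ]
  have x7 : Real.exp a ^ ((k : ℝ) - 2 ^ (j + 1) / 2 + e1) =
      Real.exp (a * ((k : ℝ) - q + e1)) := by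
    rw [← Real.exp_mul, hQ]
    congr 1
    ring
  have x8 : (Real.exp a ^ (((j + 1 : ℕ) : ℝ)) / Real.exp b') ^ (2 ^ (j + 1)) =
      Real.exp (2 * q * (a * (j + 1) - b')) := by
    rw [← Real.exp_mul, ← Real.exp_sub, ← Real.exp_nat_mul]
    push_cast
    rw [hQ]
  have x9 : (4 : ℝ) ^ (2 ^ (j + 1)) = Real.exp (2 * q * Real.log 4) := by
    conv_lhs => rw [h4]
    rw [← Real.exp_nat_mul]
    push_cast
    rw [hQ]
  rw [x4, x5, x6, x7, x8, x9]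
  have L1 : Real.exp a * (Cs * Real.exp (a * ((k : ℝ) + δs)) * Real.exp (2 * q * (a * j - b))) =
      Cs * Real.exp (a + a * ((k : ℝ) + δs) + 2 * q * (a * j - b)) := by
    rw [Real.exp_add, Real.exp_add]
    ring
  have L2 : Real.exp (2 * q * Real.log 4) * Cs * Real.exp (2 * q * c) *
        Real.exp (a * ((k : ℝ) - q + e1)) * Real.exp (2 * q * (a * (j + 1) - b')) =
      Cs * Real.exp (2 * q * Real.log 4 + 2 * q * c + a * ((k : ℝ) - q + e1) +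
        2 * q * (a * (j + 1) - b')) := by
    rw [Real.exp_add, Real.exp_add, Real.exp_add]
    ring
  rw [L1, L2]
  refine mul_le_mul_of_nonneg_left ?_ hCs
  rw [Real.exp_le_exp]
  have k1 : (2 * q) * b' ≤ (2 * q) * (Real.log 4 + c + b) :=
    mul_le_mul_of_nonneg_left g1 (by linarith)
  have k2 : a * (1 + δs) ≤ a * (q + e1) := mul_le_mul_of_nonneg_left (by linarith) ha
  nlinarith [k1, k2]


lemma sum_ite_nn (k J : ℕ) (B : Set ℝ) (β τ a : ℝ)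
    [DecidablePred fun x : ℕ => τ - ((x : ℝ) + β) ^ k ∈ B] :
    (∑ x ∈ blk J, if τ - ((x : ℝ) + β) ^ k ∈ B then a else 0) = a * nn k J B β τ := by
  rw [Finset.sum_ite, Finset.sum_const_zero, add_zero, Finset.sum_const, nsmul_eq_mul, mul_comm]
  congr 2
  unfold nn
  congr 1
  congr

/-- `2 t J + 1` is at most a constant times a small power of `3 ^ J` -/
lemma mbound (t : ℕ) (μ : ℝ) (hμ : 0 < μ) : ∃ Cμ : ℝ, 1 ≤ Cμ ∧ ∀ J : ℕ,
    (2 * t * J + 1 : ℝ) ≤ Cμ * ((3 : ℝ) ^ J) ^ μ := by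
  have h3 : 0 < Real.log 3 := Real.log_pos (by norm_num)
  refine ⟨2 * t / (μ * Real.log 3) + 1, by
    have : (0 : ℝ) ≤ 2 * t / (μ * Real.log 3) := by positivity
    linarith, fun J => ?_⟩
  have e1 : ((3 : ℝ) ^ J) ^ μ = Real.exp (J * Real.log 3 * μ) := by
    rw [Real.rpow_def_of_pos (by positivity), Real.log_pow]
  rw [e1]
  have h1 : J * Real.log 3 * μ + 1 ≤ Real.exp (J * Real.log 3 * μ) := Real.add_one_le_exp _
  have h2 : (0 : ℝ) ≤ 2 * t / (μ * Real.log 3) := by positivity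
  calc (2 * t * J + 1 : ℝ) = 2 * t / (μ * Real.log 3) * (J * Real.log 3 * μ) + 1 := by
        field_simp
    _ ≤ (2 * t / (μ * Real.log 3) + 1) * (J * Real.log 3 * μ + 1) := by
        have h4 : (0 : ℝ) ≤ J * Real.log 3 * μ := by positivity
        nlinarith
    _ ≤ _ := mul_le_mul_of_nonneg_left h1 (by linarith)

lemma mx_last {n : ℕ} (b : Fin (n + 1) → ℕ) (hb : Monotone b) : mx b = b (Fin.last n) := by
  unfold mx
  refine le_antisymm (Finset.sup_le fun i _ => hb (Fin.le_last i)) ?_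
  exact Finset.le_sup (f := b) (Finset.mem_univ _)

lemma mx_init {n : ℕ} (b : Fin (n + 1) → ℕ) (hb : Monotone b) :
    mx (Fin.init b : Fin n → ℕ) ≤ b (Fin.last n) := by
  unfold mx
  exact Finset.sup_le fun i _ => hb (Fin.le_last _)

theorem main (hS : StSplit) (hM : StMeas) (k j : ℕ) (ε δs δ δ' μ η Cv Cp Cμ : ℝ) (C Cs C' : ℕ)
    (hk : 2 ≤ k) (hj : 1 ≤ j) (hε : 0 < ε) (hδs : 0 < δs) (hδs1 : δs ≤ 1 / 2)
    (hδsε : (2 * ((k + j : ℕ) : ℝ) + 1) * δs ≤ ε)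
    (hδ : 0 < δ) (hδ' : δ' = min δ (1 / 2) / 2) (hμ : 0 < μ) (hμ1 : μ ≤ 1 / 4)
    (hμ2 : μ * (2 ^ (j + 1) + 1) ≤ ε)
    (hη1 : η ≤ 1) (hCv : 0 ≤ Cv) (hCp0 : 0 ≤ Cp) (hCμ1 : 1 ≤ Cμ)
    (hCμ : ∀ J : ℕ, (2 * ((k + j : ℕ) : ℝ) * J + 1 : ℝ) ≤ Cμ * ((3 : ℝ) ^ J) ^ μ)
    (c1 : 4 * (Cv + 2 * (C + 1)) ≤ (C' : ℝ)) (c2 : 4 * Cμ * Cs ≤ (C' : ℝ))
    (c3 : Cμ ^ (2 ^ (j + 1) + 1) * (32 * 4 ^ (2 ^ (j + 1)) * Cp * ((C : ℝ) + 1) ^ 2 +
      4 ^ (2 ^ (j + 1)) * Cs) ≤ (C' : ℝ))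
    (ξ : Fin (k + j) → ℝ) (β : ℝ)
    (b : Fin (k + j + 1) → ℕ) (hb : Monotone b) (J : ℕ) (hJ : mx b = J) (l' : ℕ)
    (hl' : (C' : ℝ) * ((3 : ℝ) ^ J) ^ (((j + 1 : ℕ) : ℝ) - δ') ≤ 2 ^ l')
    (hC : ∀ b : Fin (k + j) → ℕ, Monotone b → ∀ J l : ℕ, mx b ≤ J →
      C * ((3 : ℝ) ^ J) ^ ((j : ℝ) - δ) ≤ 2 ^ l →
      volume (Ex k ξ b η l) ≤
        ENNReal.ofReal (C * ((3 : ℝ) ^ J) ^ ((k : ℝ) - 2 ^ j / 2 + ε) *
          (((3 : ℝ) ^ J) ^ (j : ℝ) / 2 ^ l) ^ (2 ^ j)))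
    (hCs : ∀ b : Fin (k + j) → ℕ, Monotone b → ∀ J l : ℕ, mx b ≤ J →
      (j + 1 = 0 ∨ Cs * ((3 : ℝ) ^ J) ^ (((j + 1 : ℕ) : ℝ) - 1 + δs) ≤ 2 ^ l) →
      volume (Lv k ξ b l) ≤
        ENNReal.ofReal (Cs * ((3 : ℝ) ^ J) ^ ((k : ℝ) + δs) *
          (((3 : ℝ) ^ J) ^ (((k + j : ℕ) : ℝ) - k) / 2 ^ l) ^ (2 ^ (j + 1))))
    (hCp : ∀ (b : Fin (k + j) → ℕ) (J l : ℕ), mx b ≤ J →
      pairs k J (Ex k ξ b η l) β ≤
      ENNReal.ofReal (Cp * ((3 : ℝ) ^ J * 2 ^ l) ^ δs * ((3 : ℝ) ^ J) ^ 2 / ((3 : ℝ) ^ J) ^ k) *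
        (volume (Ex k ξ b η l)) ^ 2)
    (hV : ∀ (b : Fin (k + j) → ℕ) (J : ℕ) (τ : ℝ), Monotone b → mx b ≤ J →
      ∑ x ∈ blk J, vl k b η (τ - ((x : ℝ) + β) ^ k) ≤
      vl k (Fin.snoc b J : Fin (k + j + 1) → ℕ) η τ + Cv * ((3 : ℝ) ^ J) ^ j) :
    volume (Ex k (Fin.snoc ξ β : Fin (k + j + 1) → ℝ) b η l') ≤
      ENNReal.ofReal (C' * ((3 : ℝ) ^ J) ^ ((k : ℝ) - 2 ^ (j + 1) / 2 + 4 * ε) *
        (((3 : ℝ) ^ J) ^ (((j + 1 : ℕ) : ℝ)) / 2 ^ l') ^ (2 ^ (j + 1))) := by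
  classical
  obtain ⟨hsn, hcb, hmono, hvl, _, hEL⟩ := hS
  obtain ⟨_, _, hMLv, hMEx, _, _⟩ := hM
  set z : ℝ := (3 : ℝ) ^ J with hz
  have hz1 : 1 ≤ z := one_le_pow₀ (by norm_num)
  have hz0 : 0 < z := by linarith
  set b0 : Fin (k + j) → ℕ := Fin.init b with hb0
  have hbl : b (Fin.last _) = J := by rw [← mx_last b hb, hJ]
  have hbs : b = (Fin.snoc b0 J : Fin (k + j + 1) → ℕ) := by
    rw [hb0, ← hbl, Fin.snoc_init_self]
  have hb0m : Monotone b0 := fun x y hxy => hb (Fin.castSucc_le_castSucc_iff.2 hxy)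
  have hb0J : mx b0 ≤ J := by rw [← hbl]; exact mx_init b hb
  set δ1 : ℝ := min δ (1 / 2) with hδ1
  have hδ1p : 0 < δ1 := lt_min hδ (by norm_num)
  have hδ1h : δ1 ≤ 1 / 2 := min_le_right _ _
  have hδ1δ : δ1 ≤ δ := min_le_left _ _
  have hj1 : (1 : ℝ) ≤ j := by exact_mod_cast hj
  -- the smallest level
  have hx1 : 1 ≤ ((C : ℝ) + 1) * z ^ ((j : ℝ) - δ1) := by
    have h1 : 1 ≤ z ^ ((j : ℝ) - δ1) := Real.one_le_rpow hz1 (by linarith)
    have h2 : (1 : ℝ) ≤ (C : ℝ) + 1 := by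
      have : (0 : ℝ) ≤ C := Nat.cast_nonneg _
      linarith
    exact one_le_mul_of_one_le_of_one_le h2 h1
  obtain ⟨n0, hn0, hn1⟩ := exists_nat_pow_near hx1 (by norm_num : (1 : ℝ) < 2)
  set l0 := n0 + 1 with hl0
  have hl0a : ((C : ℝ) + 1) * z ^ ((j : ℝ) - δ1) ≤ 2 ^ l0 := hn1.le
  have hl0b : (2 : ℝ) ^ l0 ≤ 2 * (((C : ℝ) + 1) * z ^ ((j : ℝ) - δ1)) := by
    rw [hl0, pow_succ]
    linarith
  set M : ℕ := 2 * (k + j) * J with hMdef
  set L' : ℝ := (2 : ℝ) ^ l' with hL'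
  have hL'0 : 0 < L' := by positivity
  have hL'1 : 1 ≤ L' := one_le_pow₀ (by norm_num)
  -- small terms
  have hsmall : Cv * z ^ j + z * 2 ^ l0 ≤ L' / 4 := by
    have e1 : z ^ (((j + 1 : ℕ) : ℝ) - δ') = z * z ^ ((j : ℝ) - δ') := by
      rw [← Real.rpow_one_add' hz0.le (by
        have : δ' ≤ 1 / 4 := by rw [hδ']; linarith
        intro h
        linarith)]
      congr 1
      push_cast
      ring
    have e2 : z ^ ((j : ℝ) - δ1) ≤ z ^ ((j : ℝ) - δ') :=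
      Real.rpow_le_rpow_of_exponent_le hz1 (by rw [hδ']; linarith)
    have e3 : z ^ j ≤ z * z ^ ((j : ℝ) - δ') := by
      rw [← e1, ← Real.rpow_natCast]
      refine Real.rpow_le_rpow_of_exponent_le hz1 ?_
      push_cast
      have : δ' ≤ 1 / 4 := by rw [hδ']; linarith
      linarith
    have e4 : z * 2 ^ l0 ≤ 2 * (C + 1) * (z * z ^ ((j : ℝ) - δ')) := by
      calc z * 2 ^ l0 ≤ z * (2 * (((C : ℝ) + 1) * z ^ ((j : ℝ) - δ1))) :=
            mul_le_mul_of_nonneg_left hl0b hz0.le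
        _ ≤ z * (2 * (((C : ℝ) + 1) * z ^ ((j : ℝ) - δ'))) := by gcongr
        _ = 2 * (C + 1) * (z * z ^ ((j : ℝ) - δ')) := by ring
    have e5 : 0 ≤ z * z ^ ((j : ℝ) - δ') := by positivity
    rw [e1] at hl'
    calc Cv * z ^ j + z * 2 ^ l0
        ≤ Cv * (z * z ^ ((j : ℝ) - δ')) + 2 * (C + 1) * (z * z ^ ((j : ℝ) - δ')) := by
          gcongr
      _ = (4 * (Cv + 2 * (C + 1))) * (z * z ^ ((j : ℝ) - δ')) / 4 := by ring
      _ ≤ C' * (z * z ^ ((j : ℝ) - δ')) / 4 := by gcongr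
      _ ≤ L' / 4 := by gcongr
  -- the inclusion
  set N : ℕ → ℝ → ℝ := fun l τ => (nn k J (Ex k ξ b0 η l) β τ : ℝ) with hN
  have hincl : Ex k (Fin.snoc ξ β : Fin (k + j + 1) → ℝ) b η l' ⊆
      ⋃ l ∈ Finset.Icc l0 M, {τ : ℝ | L' ≤ 4 * (M + 1) * 2 ^ l * N l τ} := by
    intro τ hτ
    have hτ1 : vl k b η τ + L' ≤ cn k (Fin.snoc ξ β : Fin (k + j + 1) → ℝ) b η τ := hτ
    rw [hbs] at hτ1
    rw [hsn] at hτ1
    push_cast at hτ1
    have hpt : ∀ x ∈ blk J, (cn k ξ b0 η (τ - ((x : ℝ) + β) ^ k) : ℝ) ≤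
        vl k b0 η (τ - ((x : ℝ) + β) ^ k) + 2 ^ l0 + ∑ l ∈ Finset.Icc l0 M,
          if τ - ((x : ℝ) + β) ^ k ∈ Ex k ξ b0 η l then (2 : ℝ) ^ (l + 1) else 0 := by
      intro x _
      have hc := hcb k (k + j) ξ b0 η (τ - ((x : ℝ) + β) ^ k)
      have hc2 : (cn k ξ b0 η (τ - ((x : ℝ) + β) ^ k) : ℝ) ≤ 2 ^ M := by
        refine hc.trans ?_
        have h1 : ((3 : ℝ) ^ mx b0) ≤ 3 ^ J := pow_le_pow_right₀ (by norm_num) hb0J
        calc ((3 : ℝ) ^ mx b0) ^ (k + j) ≤ (3 ^ J) ^ (k + j) :=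
              pow_le_pow_left₀ (by positivity) h1 _
          _ ≤ (4 ^ J) ^ (k + j) :=
              pow_le_pow_left₀ (by positivity) (pow_le_pow_left₀ (by norm_num) (by norm_num) _) _
          _ = 2 ^ M := by
              rw [hMdef, show (4 : ℝ) = 2 ^ 2 by norm_num, ← pow_mul, ← pow_mul]
              congr 1
              ring
      have := point (cn k ξ b0 η (τ - ((x : ℝ) + β) ^ k)) M l0
        (vl k b0 η (τ - ((x : ℝ) + β) ^ k)) (hvl _ _ _ _ _) hc2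
      refine this.trans (le_of_eq ?_)
      congr 1
    have hsum := Finset.sum_le_sum hpt
    rw [Finset.sum_add_distrib, Finset.sum_add_distrib, Finset.sum_comm, Finset.sum_const,
      nsmul_eq_mul] at hsum
    simp only [sum_ite_nn] at hsum
    have hV1 := hV b0 J τ hb0m hb0J
    have hcard : ((blk J).card : ℝ) * 2 ^ l0 ≤ z * 2 ^ l0 :=
      mul_le_mul_of_nonneg_right (card_blk J) (by positivity)
    have hfin : L' ≤ (Cv * z ^ j + z * 2 ^ l0) +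
        ∑ l ∈ Finset.Icc l0 M, 2 ^ (l + 1) * N l τ := by
      simp only [hN]
      linarith
    obtain ⟨l, hl, hl2⟩ := pick M l0 l' _ (fun l => N l τ) hsmall hfin
    simp only [Set.mem_iUnion]
    exact ⟨l, hl, hl2⟩
  -- the bound for one level
  set m : ℝ := (M : ℝ) + 1 with hm
  have hm1 : 1 ≤ m := by
    have : (0 : ℝ) ≤ M := Nat.cast_nonneg _
    rw [hm]; linarith
  have hmz : m ≤ Cμ * z ^ μ := by
    have := hCμ J
    rw [hm, hMdef]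
    push_cast at this ⊢
    exact this
  set Bd : ℝ := (32 * 4 ^ (2 ^ (j + 1)) * Cp * ((C : ℝ) + 1) ^ 2 + 4 ^ (2 ^ (j + 1)) * Cs) *
    m ^ (2 ^ (j + 1)) * z ^ ((k : ℝ) - 2 ^ (j + 1) / 2 + 3 * ε) *
    (z ^ (((j + 1 : ℕ) : ℝ)) / L') ^ (2 ^ (j + 1)) with hBd
  have hBd0 : 0 ≤ Bd := by positivity
  have hlev : ∀ l ∈ Finset.Icc l0 M,
      volume {τ : ℝ | L' ≤ 4 * (M + 1) * 2 ^ l * N l τ} ≤ ENNReal.ofReal Bd := by
    intro l hl
    rw [Finset.mem_Icc] at hl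
    set L : ℝ := (2 : ℝ) ^ l with hL
    have hL0 : 0 < L := by positivity
    have hL1 : 1 ≤ L := one_le_pow₀ (by norm_num)
    rcases Set.eq_empty_or_nonempty {τ : ℝ | L' ≤ 4 * (M + 1) * L * N l τ} with he | ⟨τ0, hτ0⟩
    · rw [he, measure_empty]
      exact bot_le
    have hτ0' : L' ≤ 4 * m * L * N l τ0 := hτ0
    have hLz : L' ≤ 4 * m * L * z := by
      refine hτ0'.trans ?_
      exact mul_le_mul_of_nonneg_left (nn_le k J _ β τ0) (by positivity)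
    have hL2 : L ≤ z ^ (2 * (k + j)) := by
      calc L ≤ 2 ^ M := pow_le_pow_right₀ (by norm_num) hl.2
        _ ≤ 3 ^ M := pow_le_pow_left₀ (by norm_num) (by norm_num) _
        _ = z ^ (2 * (k + j)) := by
            rw [hz, hMdef, ← pow_mul]
            congr 1
            ring
    have hset : {τ : ℝ | L' ≤ 4 * (M + 1) * L * N l τ} =
        {τ : ℝ | L' / (4 * m * L) ≤ nn k J (Ex k ξ b0 η l) β τ} := by
      ext τ
      simp only [Set.mem_ofPred_eq, hN]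
      rw [div_le_iff₀ (by positivity), mul_comm (4 * m * L)]
    rw [hset]
    have hlC : (C : ℝ) * z ^ ((j : ℝ) - δ) ≤ 2 ^ l := by
      have h1 : z ^ ((j : ℝ) - δ) ≤ z ^ ((j : ℝ) - δ1) :=
        Real.rpow_le_rpow_of_exponent_le hz1 (by linarith)
      have h2 : (0 : ℝ) ≤ z ^ ((j : ℝ) - δ1) := by positivity
      have h3 : (0 : ℝ) ≤ C := Nat.cast_nonneg _
      calc (C : ℝ) * z ^ ((j : ℝ) - δ) ≤ C * z ^ ((j : ℝ) - δ1) :=
            mul_le_mul_of_nonneg_left h1 h3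
        _ ≤ (C + 1) * z ^ ((j : ℝ) - δ1) := mul_le_mul_of_nonneg_right (by linarith) h2
        _ ≤ 2 ^ l0 := hl0a
        _ ≤ 2 ^ l := pow_le_pow_right₀ (by norm_num) hl.1
    rcases lt_or_ge 1 (L' / (4 * m * L)) with hK | hK
    · have h1 := vol_two k J (Ex k ξ b0 η l) (hMEx k (k + j) ξ b0 η l) β _ hK
      have h2 := hC b0 hb0m J l hb0J hlC
      have h3 := hCp b0 J l hb0J
      set T : ℝ := C * z ^ ((k : ℝ) - 2 ^ j / 2 + ε) * (z ^ (j : ℝ) / 2 ^ l) ^ (2 ^ j) with hT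
      have hT0 : 0 ≤ T := by positivity
      set P : ℝ := Cp * (z * 2 ^ l) ^ δs * z ^ 2 / z ^ k with hP
      have hP0 : 0 ≤ P := by positivity
      have h4 : ENNReal.ofReal ((L' / (4 * m * L)) ^ 2 / 2) *
          volume {τ : ℝ | L' / (4 * m * L) ≤ nn k J (Ex k ξ b0 η l) β τ} ≤
          ENNReal.ofReal (P * T ^ 2) := by
        refine h1.trans (h3.trans ?_)
        rw [ENNReal.ofReal_mul hP0, ENNReal.ofReal_pow hT0]
        gcongr
      have hKp : 0 < (L' / (4 * m * L)) ^ 2 / 2 := by positivity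
      have h5 : volume {τ : ℝ | L' / (4 * m * L) ≤ nn k J (Ex k ξ b0 η l) β τ} ≤
          ENNReal.ofReal (P * T ^ 2 / ((L' / (4 * m * L)) ^ 2 / 2)) := by
        rw [ENNReal.ofReal_div_of_pos hKp,
          ENNReal.le_div_iff_mul_le (Or.inl (by simpa using hKp))
            (Or.inl ENNReal.ofReal_ne_top), mul_comm]
        exact h4
      refine h5.trans (ENNReal.ofReal_le_ofReal ?_)
      have h6 := i1 k j (k + j) C Cp z L L' m ε δs ε hCp0 hz1 hL1 hL'1 hm1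
        hδs.le hLz hL2 hδsε hj
      refine h6.trans ?_
      rw [hBd]
      have e1 : ε + 2 * ε = 3 * ε := by ring
      rw [e1]
      have h7 : 32 * 4 ^ (2 ^ (j + 1)) * Cp * (C : ℝ) ^ 2 ≤
          32 * 4 ^ (2 ^ (j + 1)) * Cp * ((C : ℝ) + 1) ^ 2 + 4 ^ (2 ^ (j + 1)) * Cs := by
        have h8 : (C : ℝ) ^ 2 ≤ ((C : ℝ) + 1) ^ 2 := by
          have : (0 : ℝ) ≤ C := Nat.cast_nonneg _
          nlinarith
        have h9 : (0 : ℝ) ≤ 4 ^ (2 ^ (j + 1)) * Cs := by positivity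
        have h10 : 32 * 4 ^ (2 ^ (j + 1)) * Cp * (C : ℝ) ^ 2 ≤
          32 * 4 ^ (2 ^ (j + 1)) * Cp * ((C : ℝ) + 1) ^ 2 :=
            mul_le_mul_of_nonneg_left h8 (by positivity)
        linarith
      gcongr
    · have h1 : {τ : ℝ | L' / (4 * m * L) ≤ nn k J (Ex k ξ b0 η l) β τ} ⊆
          {τ : ℝ | 1 ≤ nn k J (Ex k ξ b0 η l) β τ} := by
        intro τ hτ
        have hτ' : L' / (4 * m * L) ≤ nn k J (Ex k ξ b0 η l) β τ := hτ
        have h2 : (0 : ℝ) < nn k J (Ex k ξ b0 η l) β τ := lt_of_lt_of_le (by positivity) hτ'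
        have h3 : 0 < nn k J (Ex k ξ b0 η l) β τ := by exact_mod_cast h2
        exact h3
      have hLL : L' ≤ 4 * m * L := by
        rw [div_le_one (by positivity)] at hK
        exact hK
      have hcond : (Cs : ℝ) * z ^ (((j + 1 : ℕ) : ℝ) - 1 + δs) ≤ 2 ^ l := by
        have h2 : z ^ (((j + 1 : ℕ) : ℝ) - 1 + δs) * z ^ μ ≤ z ^ (((j + 1 : ℕ) : ℝ) - δ') := by
          rw [← Real.rpow_add hz0]
          refine Real.rpow_le_rpow_of_exponent_le hz1 ?_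
          have : δ' ≤ 1 / 4 := by rw [hδ']; linarith
          linarith
        have h3 : 4 * m * ((Cs : ℝ) * z ^ (((j + 1 : ℕ) : ℝ) - 1 + δs)) ≤ 4 * m * L := by
          calc 4 * m * ((Cs : ℝ) * z ^ (((j + 1 : ℕ) : ℝ) - 1 + δs))
              ≤ 4 * (Cμ * z ^ μ) * ((Cs : ℝ) * z ^ (((j + 1 : ℕ) : ℝ) - 1 + δs)) := by gcongr
            _ = 4 * Cμ * Cs * (z ^ (((j + 1 : ℕ) : ℝ) - 1 + δs) * z ^ μ) := by ring
            _ ≤ 4 * Cμ * Cs * z ^ (((j + 1 : ℕ) : ℝ) - δ') := by gcongr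
            _ ≤ C' * z ^ (((j + 1 : ℕ) : ℝ) - δ') := by gcongr
            _ ≤ L' := hl'
            _ ≤ 4 * m * L := hLL
        exact le_of_mul_le_mul_left h3 (by positivity)
      have h2 := hCs b0 hb0m J l hb0J (Or.inr hcond)
      have h3 : volume (Ex k ξ b0 η l) ≤ volume (Lv k ξ b0 l) :=
        measure_mono (hEL k (k + j) ξ b0 η l hη1)
      refine (measure_mono h1).trans ((vol_one k J _ β).trans ?_)
      have h4 : ENNReal.ofReal (3 ^ J) * volume (Ex k ξ b0 η l) ≤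
          ENNReal.ofReal (z * (Cs * z ^ ((k : ℝ) + δs) *
            (z ^ (((k + j : ℕ) : ℝ) - k) / 2 ^ l) ^ (2 ^ (j + 1)))) := by
        rw [ENNReal.ofReal_mul hz0.le]
        gcongr
        exact h3.trans h2
      refine h4.trans (ENNReal.ofReal_le_ofReal ?_)
      have h6 := i2 k j Cs z L L' m δs (3 * ε) (Nat.cast_nonneg _) hz1 hL1 hL'1 hm1
        (by linarith) hLL (by positivity) hj
      refine h6.trans ?_
      rw [hBd]
      have h7 : 4 ^ (2 ^ (j + 1)) * (Cs : ℝ) ≤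
          32 * 4 ^ (2 ^ (j + 1)) * Cp * ((C : ℝ) + 1) ^ 2 + 4 ^ (2 ^ (j + 1)) * Cs := by
        have h9 : (0 : ℝ) ≤ 32 * 4 ^ (2 ^ (j + 1)) * Cp * ((C : ℝ) + 1) ^ 2 := by positivity
        linarith
      gcongr
  -- the sum over the levels
  refine (measure_mono hincl).trans ((measure_biUnion_finset_le _ _).trans ?_)
  refine (Finset.sum_le_card_nsmul _ _ _ hlev).trans ?_
  have hcardI : ((Finset.Icc l0 M).card : ℝ) ≤ m := by
    rw [Nat.card_Icc, hm]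
    have : M + 1 - l0 ≤ M + 1 := Nat.sub_le _ _
    exact_mod_cast this
  rw [nsmul_eq_mul, ← ENNReal.ofReal_natCast, ← ENNReal.ofReal_mul (Nat.cast_nonneg _)]
  refine ENNReal.ofReal_le_ofReal ?_
  have hz3 : z ^ ((k : ℝ) - 2 ^ (j + 1) / 2 + 4 * ε) =
      z ^ ((k : ℝ) - 2 ^ (j + 1) / 2 + 3 * ε) * z ^ ε := by
    rw [← Real.rpow_add hz0]
    congr 1
    ring
  have hmQ : m ^ (2 ^ (j + 1) + 1) ≤ Cμ ^ (2 ^ (j + 1) + 1) * z ^ ε := by
    calc m ^ (2 ^ (j + 1) + 1) ≤ (Cμ * z ^ μ) ^ (2 ^ (j + 1) + 1) :=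
          pow_le_pow_left₀ (by positivity) hmz _
      _ = Cμ ^ (2 ^ (j + 1) + 1) * z ^ (μ * (2 ^ (j + 1) + 1)) := by
          rw [mul_pow]
          congr 1
          rw [← Real.rpow_natCast (z ^ μ), ← Real.rpow_mul hz0.le]
          congr 1
          push_cast
          ring
      _ ≤ Cμ ^ (2 ^ (j + 1) + 1) * z ^ ε := by
          gcongr
  calc ((Finset.Icc l0 M).card : ℝ) * Bd ≤ m * Bd := mul_le_mul_of_nonneg_right hcardI hBd0
    _ = (32 * 4 ^ (2 ^ (j + 1)) * Cp * ((C : ℝ) + 1) ^ 2 + 4 ^ (2 ^ (j + 1)) * Cs) *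
        m ^ (2 ^ (j + 1) + 1) * (z ^ ((k : ℝ) - 2 ^ (j + 1) / 2 + 3 * ε) *
        (z ^ (((j + 1 : ℕ) : ℝ)) / L') ^ (2 ^ (j + 1))) := by
        rw [hBd, pow_succ]
        ring
    _ ≤ (32 * 4 ^ (2 ^ (j + 1)) * Cp * ((C : ℝ) + 1) ^ 2 + 4 ^ (2 ^ (j + 1)) * Cs) *
        (Cμ ^ (2 ^ (j + 1) + 1) * z ^ ε) * (z ^ ((k : ℝ) - 2 ^ (j + 1) / 2 + 3 * ε) *
        (z ^ (((j + 1 : ℕ) : ℝ)) / L') ^ (2 ^ (j + 1))) := by
        gcongr
    _ = (Cμ ^ (2 ^ (j + 1) + 1) * (32 * 4 ^ (2 ^ (j + 1)) * Cp * ((C : ℝ) + 1) ^ 2 +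
          4 ^ (2 ^ (j + 1)) * Cs)) * z ^ ((k : ℝ) - 2 ^ (j + 1) / 2 + 4 * ε) *
        (z ^ (((j + 1 : ℕ) : ℝ)) / L') ^ (2 ^ (j + 1)) := by
        rw [hz3]
        ring
    _ ≤ C' * z ^ ((k : ℝ) - 2 ^ (j + 1) / 2 + 4 * ε) *
        (z ^ (((j + 1 : ℕ) : ℝ)) / L') ^ (2 ^ (j + 1)) := by
        gcongr


theorem tstep (hS : StSplit) (hM : StMeas) (hT : StTvl) : StTstep := by
  intro k j ε' hk hj hε'
  set ε : ℝ := ε' / 4 with hεd
  have hε : 0 < ε := by positivity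
  set δs : ℝ := min ε 1 / (2 * (2 * ((k + j : ℕ) : ℝ) + 1)) with hδsd
  have hden : (2 : ℝ) ≤ 2 * (2 * ((k + j : ℕ) : ℝ) + 1) := by
    have : (0 : ℝ) ≤ ((k + j : ℕ) : ℝ) := Nat.cast_nonneg _
    linarith
  have hm0 : 0 < min ε 1 := lt_min hε one_pos
  have hδs : 0 < δs := div_pos hm0 (by linarith)
  have hδs1 : δs ≤ 1 / 2 := by
    rw [hδsd, div_le_div_iff₀ (by linarith) (by norm_num)]
    have : min ε 1 ≤ 1 := min_le_right _ _
    linarith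
  have hδsε : (2 * ((k + j : ℕ) : ℝ) + 1) * δs ≤ ε := by
    have h1 : (2 * ((k + j : ℕ) : ℝ) + 1) * δs = min ε 1 / 2 := by
      rw [hδsd]
      have : (2 * ((k + j : ℕ) : ℝ) + 1) ≠ 0 := by
        have : (0 : ℝ) ≤ ((k + j : ℕ) : ℝ) := Nat.cast_nonneg _
        linarith
      field_simp
    rw [h1]
    have : min ε 1 ≤ ε := min_le_left _ _
    linarith
  refine ⟨ε, δs, hε, hδs, by linarith, ?_⟩
  intro δ hδ
  set δ' : ℝ := min δ (1 / 2) / 2 with hδ'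
  refine ⟨δ', half_pos (lt_min hδ (by norm_num)), ?_⟩
  intro η ξ β hη hη1 hβ hβ1 hTT hSS hPE
  obtain ⟨C, hC⟩ := hTT
  obtain ⟨Cs, hCs⟩ := hSS
  obtain ⟨Cp, hCp0, hCp⟩ := hPE
  obtain ⟨Cv, hCv0, hCv⟩ := hT k (k + j) hk (by omega)
  set μ : ℝ := min ε 1 / (4 * (2 ^ (j + 1) + 1)) with hμd
  have hQ0 : (0 : ℝ) < 2 ^ (j + 1) := by positivity
  have hμ : 0 < μ := div_pos hm0 (by positivity)
  have hμ1 : μ ≤ 1 / 4 := by
    rw [hμd, div_le_div_iff₀ (by positivity) (by norm_num)]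
    have : min ε 1 ≤ 1 := min_le_right _ _
    linarith
  have hμ2 : μ * (2 ^ (j + 1) + 1) ≤ ε := by
    have h1 : μ * (2 ^ (j + 1) + 1) = min ε 1 / 4 := by
      rw [hμd]
      field_simp
    rw [h1]
    have : min ε 1 ≤ ε := min_le_left _ _
    linarith
  obtain ⟨Cμ, hCμ1, hCμ⟩ := mbound (k + j) μ hμ
  set X : ℝ := 4 * (Cv + 2 * (C + 1)) + 4 * Cμ * Cs +
    Cμ ^ (2 ^ (j + 1) + 1) * (32 * 4 ^ (2 ^ (j + 1)) * Cp * ((C : ℝ) + 1) ^ 2 +
      4 ^ (2 ^ (j + 1)) * Cs) with hX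
  obtain ⟨C', hC'⟩ := exists_nat_ge X
  have hp1 : (0 : ℝ) ≤ 4 * (Cv + 2 * (C + 1)) := by positivity
  have hp2 : (0 : ℝ) ≤ 4 * Cμ * Cs := by positivity
  have hp3 : (0 : ℝ) ≤ Cμ ^ (2 ^ (j + 1) + 1) * (32 * 4 ^ (2 ^ (j + 1)) * Cp * ((C : ℝ) + 1) ^ 2 +
      4 ^ (2 ^ (j + 1)) * Cs) := by positivity
  refine ⟨C', ?_⟩
  intro b hb J l' hJ hl'
  have hJ3 : (3 : ℝ) ^ mx b ≤ 3 ^ J := pow_le_pow_right₀ (by norm_num) hJ
  have hz1 : (1 : ℝ) ≤ 3 ^ mx b := one_le_pow₀ (by norm_num)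
  have hδ'1 : δ' ≤ 1 / 4 := by
    have : min δ (1 / 2) ≤ 1 / 2 := min_le_right _ _
    rw [hδ']
    linarith
  have hj1 : (1 : ℝ) ≤ j := by exact_mod_cast hj
  have hl2 : (C' : ℝ) * ((3 : ℝ) ^ mx b) ^ (((j + 1 : ℕ) : ℝ) - δ') ≤ 2 ^ l' := by
    refine le_trans ?_ hl'
    refine mul_le_mul_of_nonneg_left ?_ (Nat.cast_nonneg _)
    refine Real.rpow_le_rpow (by positivity) hJ3 ?_
    push_cast
    linarith
  have hmain := main hS hM k j ε δs δ δ' μ η Cv Cp Cμ C Cs C' hk hj hε hδs hδs1 hδsε hδ hδ' hμ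
    hμ1 hμ2 hη1 hCv0.le hCp0 hCμ1 hCμ (by linarith) (by linarith) (by linarith) ξ β b hb (mx b)
    rfl l' hl2 hC hCs hCp (by
      intro b1 J1 τ h1 h2
      have := hCv b1 J1 η τ β h1 h2 hη hη1 hβ hβ1
      rwa [Nat.add_sub_cancel_left] at this)
  refine hmain.trans (ENNReal.ofReal_le_ofReal ?_)
  have hε4 : 4 * ε = ε' := by rw [hεd]; ring
  rw [hε4]
  have key : ∀ z : ℝ, 1 ≤ z → (C' : ℝ) * z ^ ((k : ℝ) - 2 ^ (j + 1) / 2 + ε') *
      (z ^ (((j + 1 : ℕ) : ℝ)) / 2 ^ l') ^ (2 ^ (j + 1)) =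
      C' * z ^ ((k : ℝ) - 2 ^ (j + 1) / 2 + ε' + ((j + 1 : ℕ) : ℝ) * 2 ^ (j + 1)) /
        (2 ^ l') ^ (2 ^ (j + 1)) := by
    intro z hz
    have hz0 : 0 < z := by linarith
    rw [div_pow, Real.rpow_add hz0 ((k : ℝ) - 2 ^ (j + 1) / 2 + ε')]
    have : (z ^ (((j + 1 : ℕ) : ℝ))) ^ (2 ^ (j + 1)) =
        z ^ (((j + 1 : ℕ) : ℝ) * 2 ^ (j + 1)) := by
      rw [Real.rpow_mul hz0.le, ← Real.rpow_natCast (z ^ (((j + 1 : ℕ) : ℝ))) (2 ^ (j + 1))]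
      push_cast
      rfl
    rw [this]
    ring
  rw [key _ hz1, key _ (hz1.trans hJ3)]
  refine div_le_div_of_nonneg_right ?_ (by positivity)
  refine mul_le_mul_of_nonneg_left ?_ (Nat.cast_nonneg _)
  refine Real.rpow_le_rpow (by positivity) hJ3 ?_
  have h1 : (2 : ℝ) ^ (j + 1) ≤ ((j + 1 : ℕ) : ℝ) * 2 ^ (j + 1) := by
    refine le_mul_of_one_le_left hQ0.le ?_
    push_cast
    linarith
  have h2 : (0 : ℝ) ≤ k := Nat.cast_nonneg _
  linarith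

end Pool.Agent.K7.H64.AFT
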